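import Mathlib

set_option autoImplicit false

open Set

namespace Pool.Agent.Lib.MP_3ce754_lc

/-- The part of `A` strictly above all elements of `a`. -/
def Ab (a : Finset ℕ) (A : Set ℕ) : Set ℕ := {n ∈ A | ∀ m ∈ a, m < n}

/-- The basic Ellentuck set with stem `a`. -/
def Cyl (a : Finset ℕ) (A : Set ℕ) : Set (Set ℕ) :=
  {Z | Z.Infinite ∧ (a : Set ℕ) ⊆ Z ∧ Z ⊆ (a : Set ℕ) ∪ Ab a A}

/-- The initial segment of `Z` below `n`. -/
noncomputable def ini (Z : Set ℕ) (n : ℕ) : Finset ℕ := by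
  classical exact (Finset.range n).filter (· ∈ Z)

theorem mem_ini {Z : Set ℕ} {n m : ℕ} : m ∈ ini Z n ↔ m < n ∧ m ∈ Z := by
  simp [ini]

theorem Ab_subset (a : Finset ℕ) (A : Set ℕ) : Ab a A ⊆ A := fun _ h => h.1

theorem Ab_mono (a : Finset ℕ) {A B : Set ℕ} (h : A ⊆ B) : Ab a A ⊆ Ab a B :=
  fun _ hn => ⟨h hn.1, hn.2⟩

theorem Ab_infinite (a : Finset ℕ) {A : Set ℕ} (h : A.Infinite) : (Ab a A).Infinite := by
  have h1 : A ⊆ Ab a A ∪ Iic (a.sup id) := by
    intro n hn
    by_cases h2 : ∀ m ∈ a, m < n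
    · exact Or.inl ⟨hn, h2⟩
    · push Not at h2
      obtain ⟨m, hm, hm'⟩ := h2
      exact Or.inr (hm'.trans (Finset.le_sup (f := id) hm))
  intro h2
  exact h ((h2.union (finite_Iic _)).subset h1)

theorem Cyl_mono (a : Finset ℕ) {A B : Set ℕ} (h : Ab a A ⊆ Ab a B) : Cyl a A ⊆ Cyl a B :=
  fun _ hZ => ⟨hZ.1, hZ.2.1, hZ.2.2.trans (union_subset_union_right _ h)⟩

theorem Cyl_mono' (a : Finset ℕ) {A B : Set ℕ} (h : A ⊆ B) : Cyl a A ⊆ Cyl a B :=
  Cyl_mono a (Ab_mono a h)

theorem mem_Cyl_empty {A Z : Set ℕ} : Z ∈ Cyl ∅ A ↔ Z.Infinite ∧ Z ⊆ A := by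
  simp [Cyl, Ab]

/-- Elements of `Z ∈ Cyl a A` below an element of `a` are in `a`. -/
theorem mem_of_le {a : Finset ℕ} {A Z : Set ℕ} (hZ : Z ∈ Cyl a A) {m n : ℕ} (hm : m ∈ Z)
    (hn : n ∈ a) (h : m ≤ n) : m ∈ a := by
  rcases hZ.2.2 hm with h1 | h1
  · exact h1
  · exact absurd (h1.2 n hn) (by omega)

/-- Extending the stem along `Z`. -/
theorem ini_Cyl {a : Finset ℕ} {A Z : Set ℕ} (hZ : Z ∈ Cyl a A) (n : ℕ) (hn : ∀ m ∈ a, m < n) :
    Z ∈ Cyl (ini Z n) A ∧ Cyl (ini Z n) A ⊆ Cyl a A := by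
  have h1 : ∀ m ∈ a, m ∈ ini Z n := fun m hm => mem_ini.2 ⟨hn m hm, hZ.2.1 hm⟩
  constructor
  · refine ⟨hZ.1, fun m hm => (mem_ini.1 hm).2, fun m hm => ?_⟩
    by_cases h : m < n
    · exact Or.inl (mem_ini.2 ⟨h, hm⟩)
    · rcases hZ.2.2 hm with h2 | h2
      · exact absurd (hn m h2) h
      · exact Or.inr ⟨h2.1, fun k hk => by have := (mem_ini.1 hk).1; omega⟩
  · rintro Y ⟨hY1, hY2, hY3⟩
    refine ⟨hY1, fun m hm => hY2 (h1 m hm), fun m hm => ?_⟩
    rcases hY3 hm with h2 | h2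
    · exact hZ.2.2 (mem_ini.1 h2).2
    · exact Or.inr ⟨h2.1, fun k hk => h2.2 k (h1 k hk)⟩

theorem ini_mem_Cyl {Z : Set ℕ} (hZ : Z.Infinite) (n : ℕ) : Z ∈ Cyl (ini Z n) Z := by
  have h : Z ∈ Cyl ∅ Z := mem_Cyl_empty.2 ⟨hZ, Subset.rfl⟩
  exact (ini_Cyl h n (by simp)).1

theorem Cyl_ini_anti {Z : Set ℕ} (hZ : Z.Infinite) {n n' : ℕ} (h : n ≤ n') :
    Cyl (ini Z n') Z ⊆ Cyl (ini Z n) Z := by
  have h1 := ini_Cyl (ini_mem_Cyl hZ n) n' (fun m hm => (mem_ini.1 hm).1.trans_le h)
  exact h1.2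

/-- One step of the fusion. -/
theorem fusion_step (P : Finset ℕ → Set ℕ → Prop) (A0 : Set ℕ)
    (hmono : ∀ a A B, B.Infinite → Ab a B ⊆ A → P a A → P a B)
    (hdense : ∀ a A, A ⊆ A0 → A.Infinite → ∃ B, B ⊆ A ∧ B.Infinite ∧ P a B)
    (F : Finset (Finset ℕ)) (A : Set ℕ) (hA0 : A ⊆ A0) (hA : A.Infinite) :
    ∃ B, B ⊆ A ∧ B.Infinite ∧ ∀ a ∈ F, P a B := by
  induction F using Finset.induction_on with
  | empty => exact ⟨A, Subset.rfl, hA, by simp⟩
  | insert a F _ ih =>
    obtain ⟨B, hB1, hB2, hB3⟩ := ih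
    obtain ⟨C, hC1, hC2, hC3⟩ := hdense a B (hB1.trans hA0) hB2
    refine ⟨C, hC1.trans hB1, hC2, fun b hb => ?_⟩
    rcases Finset.mem_insert.1 hb with h | h
    · exact h ▸ hC3
    · exact hmono b B C hC2 ((Ab_subset _ _).trans hC1) (hB3 b h)

/-- The fusion lemma. -/
theorem fusion (P : Finset ℕ → Set ℕ → Prop) (A0 : Set ℕ) (hA0 : A0.Infinite)
    (hmono : ∀ a A B, B.Infinite → Ab a B ⊆ A → P a A → P a B)
    (hdense : ∀ a A, A ⊆ A0 → A.Infinite → ∃ B, B ⊆ A ∧ B.Infinite ∧ P a B) :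
    ∃ B, B ⊆ A0 ∧ B.Infinite ∧ ∀ a : Finset ℕ, (a : Set ℕ) ⊆ B → P a B := by
  classical
  have step : ∀ A : {A : Set ℕ // A.Infinite ∧ A ⊆ A0}, ∃ B : {A : Set ℕ // A.Infinite ∧ A ⊆ A0},
      B.1 ⊆ A.1 ∧ (∀ x ∈ B.1, sInf A.1 < x) ∧
      ∀ a : Finset ℕ, a ⊆ Finset.range (sInf A.1 + 1) → P a B.1 := by
    intro A
    obtain ⟨B, h1, h2, h3⟩ := fusion_step P A0 hmono hdense
      (Finset.range (sInf A.1 + 1)).powerset (Ab {sInf A.1} A.1)
      ((Ab_subset _ _).trans A.2.2) (Ab_infinite _ A.2.1)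
    refine ⟨⟨B, h2, h1.trans ((Ab_subset _ _).trans A.2.2)⟩, h1.trans (Ab_subset _ _), ?_, ?_⟩
    · intro x hx
      exact (h1 hx).2 _ (by simp)
    · intro a ha
      exact h3 a (Finset.mem_powerset.2 ha)
  choose nx hnx1 hnx2 hnx3 using step
  obtain ⟨A1, hA1, hA1', hA1''⟩ := hdense ∅ A0 Subset.rfl hA0
  let S : ℕ → {A : Set ℕ // A.Infinite ∧ A ⊆ A0} := fun n => nx^[n] ⟨A1, hA1', hA1⟩
  have hS0 : (S 0).1 = A1 := rfl
  have hSs : ∀ n, S (n + 1) = nx (S n) := fun n => Function.iterate_succ_apply' _ _ _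
  have hanti : ∀ m n, m ≤ n → (S n).1 ⊆ (S m).1 := by
    intro m n h
    induction n, h using Nat.le_induction with
    | base => exact Subset.rfl
    | succ n _ ih =>
      rw [hSs]
      exact (hnx1 _).trans ih
  let b : ℕ → ℕ := fun n => sInf (S n).1
  have hb : ∀ n, b n ∈ (S n).1 := fun n => Nat.sInf_mem (S n).2.1.nonempty
  have hbm : ∀ m n, m ≤ n → b n ∈ (S m).1 := fun m n h => hanti m n h (hb n)
  have hlt : ∀ n, b n < b (n + 1) := by
    intro n
    have := hb (n + 1)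
    rw [hSs] at this
    exact hnx2 _ _ this
  have hbs : StrictMono b := strictMono_nat_of_lt_succ hlt
  refine ⟨range b, ?_, infinite_range_of_injective hbs.injective, ?_⟩
  · rintro _ ⟨n, rfl⟩
    exact (S n).2.2 (hb n)
  · intro a ha
    rcases a.eq_empty_or_nonempty with rfl | hne
    · refine hmono ∅ A1 _ (infinite_range_of_injective hbs.injective) ?_ hA1''
      refine (Ab_subset _ _).trans ?_
      rintro _ ⟨n, rfl⟩
      exact hbm 0 n (Nat.zero_le _)
    · obtain ⟨n, hn⟩ := ha (Finset.mem_coe.2 (a.max'_mem hne))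
      have h1 : a ⊆ Finset.range (sInf (S n).1 + 1) := by
        intro m hm
        rw [Finset.mem_range]
        have := a.le_max' m hm
        have h2 : b n = sInf (S n).1 := rfl
        omega
      refine hmono a (S (n + 1)).1 _ (infinite_range_of_injective hbs.injective) ?_ ?_
      · rintro _ ⟨⟨m, rfl⟩, hm⟩
        have h2 : b n < b m := by rw [hn]; exact hm _ (a.max'_mem hne)
        exact hbm (n + 1) m (hbs.lt_iff_lt.1 h2)
      · rw [hSs]
        exact hnx3 _ _ h1

/-- Completely Ramsey sets. -/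
def CR (X : Set (Set ℕ)) : Prop :=
  ∀ a A, A.Infinite → ∃ B, B ⊆ A ∧ B.Infinite ∧ (Cyl a B ⊆ X ∨ Disjoint (Cyl a B) X)

/-- Ramsey null sets. -/
def RN (X : Set (Set ℕ)) : Prop :=
  ∀ a A, A.Infinite → ∃ B, B ⊆ A ∧ B.Infinite ∧ Disjoint (Cyl a B) X

/-- Ellentuck-open sets. -/
def EO (U : Set (Set ℕ)) : Prop := ∀ Z ∈ U, Z.Infinite → ∃ n, Cyl (ini Z n) Z ⊆ U

theorem mem_Cyl_union_ini {a : Finset ℕ} {A Z : Set ℕ} (hZ : Z ∈ Cyl a A) (n : ℕ)
    (hn : ∀ m ∈ a, m < n) :
    ∃ c : Finset ℕ, (c : Set ℕ) ⊆ Ab a A ∧ ini Z n = a ∪ c ∧ (c : Set ℕ) ⊆ Z ∧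
      ∀ m ∈ Z, m < n → m ∈ a ∨ m ∈ c := by
  classical
  refine ⟨(ini Z n).filter (· ∉ a), ?_, ?_, ?_, ?_⟩
  · intro m hm
    rw [Finset.coe_filter, mem_ofPred_eq] at hm
    rcases hZ.2.2 (mem_ini.1 hm.1).2 with h | h
    · exact absurd h hm.2
    · exact h
  · ext m
    rw [Finset.mem_union, Finset.mem_filter]
    constructor
    · intro h
      by_cases h' : m ∈ a
      · exact Or.inl h'
      · exact Or.inr ⟨h, h'⟩
    · rintro (h | h)
      · exact mem_ini.2 ⟨hn m h, hZ.2.1 h⟩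
      · exact h.1
  · intro m hm
    rw [Finset.coe_filter, mem_ofPred_eq] at hm
    exact (mem_ini.1 hm.1).2
  · intro m hm hmn
    by_cases h' : m ∈ a
    · exact Or.inl h'
    · exact Or.inr (Finset.mem_filter.2 ⟨mem_ini.2 ⟨hmn, hm⟩, h'⟩)

/-- Open sets are completely Ramsey. -/
theorem EO.cr {U : Set (Set ℕ)} (hU : EO U) : CR U := by
  classical
  intro a A hA
  -- acceptance and rejection
  let acc : Finset ℕ → Set ℕ → Prop := fun b B => Cyl b B ⊆ U
  let rej : Finset ℕ → Set ℕ → Prop := fun b B => ∀ C, C ⊆ B → C.Infinite → ¬ acc b C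
  have acc_mono : ∀ b B C, Ab b C ⊆ B → acc b B → acc b C := by
    intro b B C h h1
    refine (Cyl_mono b ?_).trans h1
    intro n hn
    exact ⟨h hn, hn.2⟩
  have rej_mono : ∀ b B C, Ab b C ⊆ B → rej b B → rej b C := by
    intro b B C h h1 D hD hD' h2
    refine h1 (Ab b D) ((Ab_mono b hD).trans h) (Ab_infinite b hD') ?_
    exact acc_mono b D _ ((Ab_subset _ _).trans (Ab_subset _ _)) h2
  obtain ⟨B1, hB1, hB1', hdec⟩ := fusion (fun c B => acc (a ∪ c) B ∨ rej (a ∪ c) B) A hA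
    (by
      intro c B C _ h h1
      have h2 : Ab (a ∪ c) C ⊆ B := by
        refine Subset.trans ?_ h
        intro n hn
        exact ⟨hn.1, fun m hm => hn.2 m (Finset.mem_union_right _ hm)⟩
      exact h1.imp (acc_mono _ _ _ h2) (rej_mono _ _ _ h2))
    (by
      intro c B _ hB
      by_cases h : rej (a ∪ c) B
      · exact ⟨B, Subset.rfl, hB, Or.inr h⟩
      · simp only [rej] at h
        push Not at h
        obtain ⟨C, h1, h2, h3⟩ := h
        exact ⟨C, h1, h2, Or.inl h3⟩)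
  by_cases hacc : acc a B1
  · exact ⟨B1, hB1, hB1', Or.inl hacc⟩
  have hrej : rej a B1 := by
    have := hdec ∅ (by simp)
    simp only [Finset.union_empty] at this
    exact this.resolve_left hacc
  obtain ⟨C, hC, hC', hstep⟩ := fusion (fun c B => (c : Set ℕ) ⊆ B1 → rej (a ∪ c) B1 →
      ∀ n ∈ Ab (a ∪ c) B, n ∈ B1 → rej (insert n (a ∪ c)) B1) B1 hB1'
    (by
      intro c B D _ h h1 h2 h3 n hn hn'
      refine h1 h2 h3 n ⟨h ⟨hn.1, fun m hm => hn.2 m (Finset.mem_union_right _ hm)⟩, hn.2⟩ hn')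
    (by
      intro c B hBB1 hB
      by_cases h2 : (c : Set ℕ) ⊆ B1 ∧ rej (a ∪ c) B1
      · let A' : Set ℕ := {n ∈ Ab (a ∪ c) B | acc (insert n (a ∪ c)) B1}
        have hfin : A'.Finite := by
          by_contra hinf
          refine h2.2 A' (fun n hn => hBB1 hn.1.1) hinf ?_
          -- acceptance of `a ∪ c` by `A'`
          rintro Z ⟨hZ1, hZ2, hZ3⟩
          have hne : (Z \ (a ∪ c : Finset ℕ)).Nonempty :=
            (hZ1.sdiff (Finset.finite_toSet _)).nonempty
          set n := sInf (Z \ (a ∪ c : Finset ℕ)) with hn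
          have hnmem : n ∈ Z \ (a ∪ c : Finset ℕ) := Nat.sInf_mem hne
          have hnA' : n ∈ Ab (a ∪ c) A' := by
            rcases hZ3 hnmem.1 with h | h
            · exact absurd h hnmem.2
            · exact h
          refine hnA'.1.2 ⟨hZ1, ?_, ?_⟩
          · intro m hm
            rw [Finset.coe_insert] at hm
            rcases hm with h | h
            · exact h ▸ hnmem.1
            · exact hZ2 h
          · intro m hm
            by_cases h : m ∈ (insert n (a ∪ c) : Finset ℕ)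
            · exact Or.inl h
            · have h3 : m ∉ (a ∪ c : Finset ℕ) := fun h' => h (Finset.mem_insert_of_mem h')
              have h4 : m ≠ n := fun h' => h (h' ▸ Finset.mem_insert_self _ _)
              have h5 : n ≤ m := Nat.sInf_le ⟨hm, h3⟩
              rcases hZ3 hm with h6 | h6
              · exact absurd h6 h3
              · refine Or.inr ⟨hBB1 h6.1.1.1, fun k hk => ?_⟩
                rcases Finset.mem_insert.1 hk with h7 | h7
                · omega
                · exact h6.2 k h7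
        refine ⟨B \ A', sdiff_subset, hB.sdiff hfin, ?_⟩
        intro h3 h4 n hn hn'
        have h5 : ¬ acc (insert n (a ∪ c)) B1 := by
          intro h6
          exact hn.1.2 ⟨⟨hn.1.1, hn.2⟩, h6⟩
        have h6 := hdec (insert n c) (by
          rw [Finset.coe_insert]
          exact insert_subset hn' h3)
        have h7 : a ∪ insert n c = insert n (a ∪ c) := by
          ext m; simp only [Finset.mem_union, Finset.mem_insert]; tauto
        simp only [h7] at h6
        exact h6.resolve_left h5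
      · refine ⟨B, Subset.rfl, hB, fun h3 h4 => absurd ⟨h3, h4⟩ h2⟩)
  -- all finite extensions of `a` inside `C` are rejected
  have hall : ∀ c : Finset ℕ, (c : Set ℕ) ⊆ Ab a C → rej (a ∪ c) B1 := by
    intro c
    induction c using Finset.induction_on_max with
    | empty => intro _; simpa using hrej
    | insert n c hmax ih =>
      intro hc
      rw [Finset.coe_insert, insert_subset_iff] at hc
      have h1 := ih hc.2
      have h2 := hstep c (hc.2.trans (Ab_subset _ _)) (hc.2.trans ((Ab_subset _ _).trans hC)) h1 n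
        ⟨hc.1.1, fun m hm => by
          rcases Finset.mem_union.1 hm with h | h
          · exact hc.1.2 m h
          · exact hmax m h⟩ (hC hc.1.1)
      have h7 : a ∪ insert n c = insert n (a ∪ c) := by
        ext m; simp only [Finset.mem_union, Finset.mem_insert]; tauto
      rw [h7]
      exact h2
  refine ⟨C, hC.trans hB1, hC', Or.inr ?_⟩
  rw [Set.disjoint_left]
  intro Z hZ hZU
  obtain ⟨n, hn⟩ := hU Z hZU hZ.1
  let n' := max n (a.sup id + 1)
  have hn' : ∀ m ∈ a, m < n' := fun m hm => by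
    have := Finset.le_sup (f := id) hm
    simp only [id] at this
    exact lt_of_lt_of_le (Nat.lt_succ_of_le this) (le_max_right _ _)
  obtain ⟨c, hc1, hc2, hc3, hc4⟩ := mem_Cyl_union_ini hZ n' hn'
  have h1 : Cyl (a ∪ c) Z ⊆ U := by
    rw [← hc2]
    exact (Cyl_ini_anti hZ.1 (le_max_left _ _)).trans hn
  have h2 : (Z \ (a : Set ℕ)).Infinite := hZ.1.sdiff a.finite_toSet
  have h3 : Z \ (a : Set ℕ) ⊆ B1 := by
    intro m hm
    rcases hZ.2.2 hm.1 with h | h
    · exact absurd h hm.2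
    · exact hC h.1
  exact hall c hc1 _ h3 h2 ((Cyl_mono' _ sdiff_subset).trans h1)

theorem CR.compl {X : Set (Set ℕ)} (h : CR X) : CR Xᶜ := by
  intro a A hA
  obtain ⟨B, h1, h2, h3⟩ := h a A hA
  refine ⟨B, h1, h2, ?_⟩
  rcases h3 with h3 | h3
  · exact Or.inr (disjoint_compl_right.mono_left h3)
  · exact Or.inl (subset_compl_iff_disjoint_right.2 h3)

/-- Countable unions of Ramsey null sets are Ramsey null. -/
theorem RN.iUnion {M : ℕ → Set (Set ℕ)} (hM : ∀ k, RN (M k)) : RN (⋃ k, M k) := by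
  classical
  intro a A hA
  obtain ⟨B, hB, hB', h⟩ := fusion
    (fun c B => ∀ k ≤ c.card, Disjoint (Cyl (a ∪ c) B) (M k)) A hA
    (by
      intro c B C _ h h1 k hk
      refine (h1 k hk).mono_left (Cyl_mono _ ?_)
      intro n hn
      exact ⟨h ⟨hn.1, fun m hm => hn.2 m (Finset.mem_union_right _ hm)⟩, hn.2⟩)
    (by
      intro c B _ hB
      have : ∀ N : ℕ, ∃ C, C ⊆ B ∧ C.Infinite ∧ ∀ k < N, Disjoint (Cyl (a ∪ c) C) (M k) := by
        intro N
        induction N with
        | zero => exact ⟨B, Subset.rfl, hB, by simp⟩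
        | succ N ih =>
          obtain ⟨C, h1, h2, h3⟩ := ih
          obtain ⟨D, h4, h5, h6⟩ := hM N (a ∪ c) C h2
          refine ⟨D, h4.trans h1, h5, fun k hk => ?_⟩
          rcases Nat.lt_succ_iff_lt_or_eq.1 hk with h | h
          · exact (h3 k h).mono_left (Cyl_mono' _ h4)
          · exact h ▸ h6
      obtain ⟨C, h1, h2, h3⟩ := this (c.card + 1)
      exact ⟨C, h1, h2, fun k hk => h3 k (Nat.lt_succ_of_le hk)⟩)
  refine ⟨B, hB, hB', ?_⟩
  rw [Set.disjoint_left]
  intro Z hZ hZM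
  obtain ⟨k, hk⟩ := mem_iUnion.1 hZM
  -- a long initial segment of `Z`
  have h2 : (Z \ (a : Set ℕ)).Infinite := hZ.1.sdiff a.finite_toSet
  obtain ⟨t, ht1, ht2⟩ := h2.exists_subset_card_eq k
  let n' := max (t.sup id + 1) (a.sup id + 1)
  have hn' : ∀ m ∈ a, m < n' := fun m hm => by
    have := Finset.le_sup (f := id) hm
    simp only [id] at this
    exact lt_of_lt_of_le (Nat.lt_succ_of_le this) (le_max_right _ _)
  have hn'' : ∀ m ∈ t, m < n' := fun m hm => by
    have := Finset.le_sup (f := id) hm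
    simp only [id] at this
    exact lt_of_lt_of_le (Nat.lt_succ_of_le this) (le_max_left _ _)
  obtain ⟨c, hc1, hc2, hc3, hc4⟩ := mem_Cyl_union_ini hZ n' hn'
  have h4 : t ⊆ c := by
    intro m hm
    have := ht1 (Finset.mem_coe.2 hm)
    rcases hc4 m this.1 (hn'' m hm) with h | h
    · exact absurd h this.2
    · exact h
  have h5 : k ≤ c.card := by rw [← ht2]; exact Finset.card_le_card h4
  have h6 := h c (hc1.trans (Ab_subset _ _)) k h5
  rw [Set.disjoint_left] at h6
  refine h6 ?_ hk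
  rw [← hc2]
  exact (ini_Cyl hZ n' hn').1

/-- The Ellentuck interior. -/
def int (X : Set (Set ℕ)) : Set (Set ℕ) := {Z | Z.Infinite ∧ ∃ n, Cyl (ini Z n) Z ⊆ X}

theorem mem_int {X : Set (Set ℕ)} {a : Finset ℕ} {A Z : Set ℕ} (hZ : Z ∈ Cyl a A)
    (h : Cyl a A ⊆ X) : Z ∈ int X := by
  refine ⟨hZ.1, a.sup id + 1, ?_⟩
  have hn : ∀ m ∈ a, m < a.sup id + 1 := fun m hm =>
    Nat.lt_succ_of_le (Finset.le_sup (f := id) hm)
  have h1 := ini_Cyl hZ _ hn
  refine Subset.trans (Subset.trans (Cyl_mono _ ?_) h1.2) h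
  intro m hm
  rcases hZ.2.2 hm.1 with h2 | h2
  · have : m ∈ ini Z (a.sup id + 1) := mem_ini.2 ⟨hn m h2, hm.1⟩
    exact absurd (hm.2 m this) (lt_irrefl _)
  · exact ⟨h2.1, hm.2⟩

theorem int_subset (X : Set (Set ℕ)) : int X ⊆ X := by
  rintro Z ⟨hZ, n, hn⟩
  exact hn (ini_mem_Cyl hZ n)

theorem int_EO (X : Set (Set ℕ)) : EO (int X) := by
  rintro Z ⟨hZ, n, hn⟩ _
  exact ⟨n, fun Y hY => mem_int hY hn⟩

theorem EO.iUnion {U : ℕ → Set (Set ℕ)} (h : ∀ k, EO (U k)) : EO (⋃ k, U k) := by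
  intro Z hZ hZ'
  obtain ⟨k, hk⟩ := mem_iUnion.1 hZ
  obtain ⟨n, hn⟩ := h k Z hk hZ'
  exact ⟨n, hn.trans (subset_iUnion _ k)⟩

theorem CR.diff_int {X : Set (Set ℕ)} (h : CR X) : RN (X \ int X) := by
  intro a A hA
  obtain ⟨B, h1, h2, h3⟩ := h a A hA
  refine ⟨B, h1, h2, ?_⟩
  rw [Set.disjoint_left]
  intro Z hZ hZX
  rcases h3 with h3 | h3
  · exact hZX.2 (mem_int hZ h3)
  · exact Set.disjoint_left.1 h3 hZ hZX.1

/-- Countable unions of completely Ramsey sets are completely Ramsey. -/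
theorem CR.iUnion {X : ℕ → Set (Set ℕ)} (h : ∀ k, CR (X k)) : CR (⋃ k, X k) := by
  intro a A hA
  have hG : EO (⋃ k, int (X k)) := EO.iUnion fun k => int_EO _
  have hM : RN (⋃ k, (X k \ int (X k))) := RN.iUnion fun k => (h k).diff_int
  obtain ⟨B, h1, h2, h3⟩ := hM a A hA
  obtain ⟨C, h4, h5, h6⟩ := hG.cr a B h2
  refine ⟨C, h4.trans h1, h5, ?_⟩
  rcases h6 with h6 | h6
  · exact Or.inl (h6.trans (iUnion_mono fun k => int_subset _))
  · refine Or.inr ?_
    rw [Set.disjoint_left]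
    intro Z hZ hZX
    obtain ⟨k, hk⟩ := mem_iUnion.1 hZX
    by_cases h7 : Z ∈ int (X k)
    · exact Set.disjoint_left.1 h6 hZ (mem_iUnion.2 ⟨k, h7⟩)
    · exact Set.disjoint_left.1 h3 (Cyl_mono' _ h4 hZ) (mem_iUnion.2 ⟨k, hk, h7⟩)

theorem CR.iInter {X : ℕ → Set (Set ℕ)} (h : ∀ k, CR (X k)) : CR (⋂ k, X k) := by
  have := (CR.iUnion fun k => (h k).compl).compl
  rw [compl_iUnion] at this
  simpa using this

theorem RN.iUnion' {ι : Type} [Encodable ι] {M : ι → Set (Set ℕ)} (hM : ∀ k, RN (M k)) :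
    RN (⋃ k, M k) := by
  have h1 : RN (∅ : Set (Set ℕ)) := fun a A hA => ⟨A, Subset.rfl, hA, disjoint_empty _⟩
  have h2 : (⋃ k, M k) = ⋃ n : ℕ, ⋃ k ∈ Encodable.decode₂ ι n, M k := by
    rw [Encodable.iUnion_decode₂]
  rw [h2]
  refine RN.iUnion fun n => ?_
  exact Encodable.iUnion_decode₂_cases h1 hM

/-- The increasing enumeration of a set of naturals. -/
noncomputable def en (Z : Set ℕ) : ℕ → ℕ := Nat.nth (· ∈ Z)

theorem en_strictMono {Z : Set ℕ} (hZ : Z.Infinite) : StrictMono (en Z) :=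
  Nat.nth_strictMono hZ

theorem range_en {Z : Set ℕ} (hZ : Z.Infinite) : range (en Z) = Z :=
  Nat.range_nth_of_infinite hZ

theorem en_range {z : ℕ → ℕ} (hz : StrictMono z) : en (range z) = z := by
  have h : (range z).Infinite := infinite_range_of_injective hz.injective
  exact ((en_strictMono h).range_inj hz).1 (range_en h)

theorem en_mem {Z : Set ℕ} (hZ : Z.Infinite) (i : ℕ) : en Z i ∈ Z :=
  Nat.nth_mem_of_infinite hZ i

/-- If `Y` and `Z` agree below `n`, their enumerations agree as long as they are below `n`. -/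
theorem en_eq_of_agree {Y Z : Set ℕ} (hY : Y.Infinite) (hZ : Z.Infinite) {n : ℕ}
    (h : ∀ m < n, m ∈ Y ↔ m ∈ Z) : ∀ i, en Z i < n → en Y i = en Z i := by
  intro i
  induction i using Nat.strong_induction_on with
  | _ i ih =>
    intro hi
    have h1 : en Z i ∈ Y := (h _ hi).2 (en_mem hZ i)
    have h2 : ∀ j < i, en Y j = en Z j := fun j hj => ih j hj ((en_strictMono hZ hj).trans hi)
    apply le_antisymm
    · -- `en Z i` is an element of `Y` above the first `i` elements
      obtain ⟨k, hk⟩ := (range_en hY).symm ▸ h1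
      rw [← hk]
      apply (en_strictMono hY).monotone
      by_contra hlt
      push Not at hlt
      have h3 := h2 k hlt
      rw [hk] at h3
      exact absurd (en_strictMono hZ hlt) (by omega)
    · by_contra hlt
      push Not at hlt
      have h3 : en Y i ∈ Z := (h _ (hlt.trans hi)).1 (en_mem hY i)
      obtain ⟨k, hk⟩ := (range_en hZ).symm ▸ h3
      rw [← hk] at hlt
      have h4 : k < i := (en_strictMono hZ).lt_iff_lt.1 hlt
      have h5 := h2 k h4
      rw [hk] at h5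
      exact absurd (en_strictMono hY h4) (by omega)

/-- Silver's theorem: analytic sets of increasing sequences are Ramsey. -/
theorem silver (X : Set (ℕ → ℕ)) (hX : MeasureTheory.AnalyticSet X) (A : Set ℕ)
    (hA : A.Infinite) : ∃ B, B ⊆ A ∧ B.Infinite ∧
      ((∀ z : ℕ → ℕ, StrictMono z → (∀ i, z i ∈ B) → z ∈ X) ∨
        (∀ z : ℕ → ℕ, StrictMono z → (∀ i, z i ∈ B) → z ∉ X)) := by
  rw [MeasureTheory.AnalyticSet] at hX
  rcases hX with rfl | ⟨f, hf, rfl⟩
  · exact ⟨A, Subset.rfl, hA, Or.inr fun z _ _ => by simp⟩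
  -- the Suslin scheme
  let cy : List ℕ → Set (ℕ → ℕ) := fun s => {y | ∀ i (h : i < s.length), y i = s[i]}
  let XS : List ℕ → Set (Set ℕ) := fun s => {Z | Z.Infinite ∧ en Z ∈ f '' cy s}
  have hXS : ∀ s, XS s ⊆ ⋃ k, XS (s ++ [k]) := by
    rintro s Z ⟨hZ, y, hy, hy'⟩
    refine mem_iUnion.2 ⟨y s.length, hZ, y, ?_, hy'⟩
    intro i hi
    rw [List.length_append, List.length_singleton] at hi
    by_cases h : i < s.length
    · rw [List.getElem_append_left h]
      exact hy i h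
    · have : i = s.length := by omega
      subst this
      simp
  let U : List ℕ → Set (Set ℕ) := fun s => int (XS s)ᶜ
  have hU : ∀ s, EO (U s) := fun s => int_EO _
  have hN : ∀ s, RN ((⋂ k, U (s ++ [k])) \ U s) := by
    intro s a A hA
    obtain ⟨B, hB, hB', h⟩ := (hU s).cr a A hA
    rcases h with h | h
    · refine ⟨B, hB, hB', ?_⟩
      rw [Set.disjoint_left]
      exact fun Z hZ hZ' => hZ'.2 (h hZ)
    · obtain ⟨C, hC, hC', h'⟩ := (CR.iInter fun k => (hU (s ++ [k])).cr) a B hB'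
      refine ⟨C, hC.trans hB, hC', ?_⟩
      rcases h' with h' | h'
      · exfalso
        have h1 : Cyl a C ⊆ (XS s)ᶜ := by
          intro Z hZ hZX
          obtain ⟨k, hk⟩ := mem_iUnion.1 (hXS s hZX)
          exact int_subset _ (mem_iInter.1 (h' hZ) k) hk
        have h2 : (a : Set ℕ) ∪ Ab a C ∈ Cyl a C :=
          ⟨(Ab_infinite a hC').mono subset_union_right, subset_union_left, Subset.rfl⟩
        exact Set.disjoint_left.1 h (Cyl_mono' _ hC h2) (mem_int h2 h1)
      · rw [Set.disjoint_left] at h' ⊢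
        exact fun Z hZ hZ' => h' hZ hZ'.1
  obtain ⟨B, hB, hB', h1⟩ := (RN.iUnion' hN) ∅ A hA
  obtain ⟨C, hC, hC', h2⟩ := (hU []).cr ∅ B hB'
  refine ⟨C, hC.trans hB, hC', ?_⟩
  have hCyl : ∀ z : ℕ → ℕ, StrictMono z → (∀ i, z i ∈ C) → range z ∈ Cyl ∅ C := by
    intro z hz hz'
    refine mem_Cyl_empty.2 ⟨infinite_range_of_injective hz.injective, ?_⟩
    rintro _ ⟨i, rfl⟩
    exact hz' i
  rcases h2 with h2 | h2
  · right
    rintro z hz hz' ⟨y, hy⟩
    refine int_subset _ (h2 (hCyl z hz hz')) ⟨infinite_range_of_injective hz.injective, y, ?_, ?_⟩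
    · intro i hi
      simp at hi
    · rw [en_range hz]
      exact hy
  · left
    intro z hz hz'
    have hZ := hCyl z hz hz'
    set Z := range z with hZdef
    have hZinf : Z.Infinite := hZ.1
    have h0 : Z ∉ U [] := fun h => Set.disjoint_left.1 h2 hZ h
    have hstep : ∀ s, Z ∉ U s → ∃ k, Z ∉ U (s ++ [k]) := by
      intro s hs
      by_contra hc
      push Not at hc
      refine Set.disjoint_left.1 h1 (Cyl_mono' _ hC hZ) (mem_iUnion.2 ⟨s, ?_, hs⟩)
      exact mem_iInter.2 hc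
    choose! g hg using hstep
    let S : ℕ → List ℕ := fun n => (fun s => s ++ [g s])^[n] []
    have hSs : ∀ n, S (n + 1) = S n ++ [g (S n)] := fun n => Function.iterate_succ_apply' _ _ _
    have hSU : ∀ n, Z ∉ U (S n) := by
      intro n
      induction n with
      | zero => exact h0
      | succ n ih => rw [hSs]; exact hg _ ih
    have hlen : ∀ n, (S n).length = n := by
      intro n
      induction n with
      | zero => rfl
      | succ n ih => rw [hSs, List.length_append, ih]; rfl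
    let y : ℕ → ℕ := fun n => g (S n)
    have hSy : ∀ n i (h : i < (S n).length), (S n)[i] = y i := by
      intro n
      induction n with
      | zero => intro i h; exact absurd h (by simp [S])
      | succ n ih =>
        intro i h
        simp only [hSs] at h ⊢
        by_cases h' : i < (S n).length
        · rw [List.getElem_append_left h']
          exact ih i h'
        · rw [List.length_append, List.length_singleton] at h
          have : i = (S n).length := by omega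
          subst this
          have h9 : y (S n).length = g (S n) := by simp only [y, hlen]
          rw [h9]
          simp
    -- approximations
    have happ : ∀ n, ∃ y' : ℕ → ℕ, (∀ i < n, y' i = y i) ∧ ∃ Y : Set ℕ, Y.Infinite ∧
        (∀ m < n, m ∈ Y ↔ m ∈ Z) ∧ f y' = en Y := by
      intro n
      have h3 : ¬ Cyl (ini Z n) Z ⊆ (XS (S n))ᶜ := fun h => hSU n ⟨hZinf, n, h⟩
      rw [not_subset] at h3
      obtain ⟨Y, hY, hY'⟩ := h3
      rw [notMem_compl_iff] at hY'
      obtain ⟨hYinf, y', hy', hy''⟩ := hY'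
      refine ⟨y', ?_, Y, hYinf, ?_, hy''⟩
      · intro i hi
        rw [hy' i (by rw [hlen]; exact hi)]
        exact hSy n i _
      · intro m hm
        constructor
        · intro h
          rcases hY.2.2 h with h4 | h4
          · exact (mem_ini.1 h4).2
          · exact h4.1
        · intro h
          exact hY.2.1 (mem_ini.2 ⟨hm, h⟩)
    refine ⟨y, ?_⟩
    choose y' hy' Y hYinf hYZ hfY using happ
    have hlim : Filter.Tendsto y' Filter.atTop (nhds y) := by
      rw [tendsto_pi_nhds]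
      intro i
      refine tendsto_const_nhds.congr' ?_
      filter_upwards [Filter.eventually_gt_atTop i] with n hn
      exact (hy' n i hn).symm
    have h5 : Filter.Tendsto (fun n => f (y' n)) Filter.atTop (nhds (f y)) :=
      (hf.tendsto y).comp hlim
    have h6 : Filter.Tendsto (fun n => f (y' n)) Filter.atTop (nhds z) := by
      rw [tendsto_pi_nhds]
      intro i
      refine tendsto_const_nhds.congr' ?_
      filter_upwards [Filter.eventually_gt_atTop (z i)] with n hn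
      rw [hfY n]
      have h7 : en Z = z := en_range hz
      have h8 := en_eq_of_agree (hYinf n) hZinf (hYZ n) i (by rw [h7]; exact hn)
      rw [h8, h7]
    exact tendsto_nhds_unique h5 h6

end Pool.Agent.Lib.MP_3ce754_lc
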